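import Mathlib
import Pool.Agent.V1181.HopfCole
import Pool.Agent.V1181.EigBound

/-!
# The threshold solution may be far below zero
-/

set_option autoImplicit false

namespace Pool.Agent.Results.MP_0cf84d_an.FarBelow

open Pool.Agent.V1181
open Real Set Filter MeasureTheory Topology InnerProductSpace Laplacian

noncomputable section

/-- The coefficient `c`, as a function of `|x| ^ 2`. -/
def cc (s : ℝ) : ℝ := 16 * (2 + 3 * s) / max (5 - 3 * s) 2

/-- The function `h`, as a function of `|x| ^ 2`. -/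
def hh (s : ℝ) : ℝ := -4 - 4 * s + cc s * (1 - s)

/-- The weight, as a function of `|x| ^ 2`. -/
def F (s : ℝ) : ℝ := exp (s - 1) * (1 - 8 / 5 * s + 3 / 5 * s ^ 2)

def F' (s : ℝ) : ℝ := exp (s - 1) * (-3 / 5 - 2 / 5 * s + 3 / 5 * s ^ 2)

def F'' (s : ℝ) : ℝ := exp (s - 1) * (-1 + 4 / 5 * s + 3 / 5 * s ^ 2)

theorem F_deriv (s : ℝ) : HasDerivAt F (F' s) s := by
  have h1 : HasDerivAt (fun s : ℝ => exp (s - 1)) (exp (s - 1)) s := by
    have := ((hasDerivAt_id s).sub_const 1).exp
    rw [mul_one] at this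
    exact this
  have h2 : HasDerivAt (fun s : ℝ => 1 - 8 / 5 * s + 3 / 5 * s ^ 2) (-(8 / 5) + 6 / 5 * s) s := by
    have := (((hasDerivAt_id s).const_mul (8 / 5)).const_sub 1).add
      ((hasDerivAt_pow 2 s).const_mul (3 / 5))
    refine this.congr_deriv ?_
    norm_num
    ring
  refine (h1.mul h2).congr_deriv ?_
  unfold F'
  ring

theorem F'_deriv (s : ℝ) : HasDerivAt F' (F'' s) s := by
  have h1 : HasDerivAt (fun s : ℝ => exp (s - 1)) (exp (s - 1)) s := by
    have := ((hasDerivAt_id s).sub_const 1).exp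
    rw [mul_one] at this
    exact this
  have h2 : HasDerivAt (fun s : ℝ => -3 / 5 - 2 / 5 * s + 3 / 5 * s ^ 2)
      (-(2 / 5) + 6 / 5 * s) s := by
    have := (((hasDerivAt_id s).const_mul (2 / 5)).const_sub (-3 / 5)).add
      ((hasDerivAt_pow 2 s).const_mul (3 / 5))
    refine this.congr_deriv ?_
    norm_num
    ring
  refine (h1.mul h2).congr_deriv ?_
  unfold F''
  ring

theorem F_smooth : ContDiff ℝ 2 F := by
  unfold F
  fun_prop

theorem cc_pos {s : ℝ} (h : 0 ≤ s) : 0 < cc s := by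
  unfold cc
  have : 0 < max (5 - 3 * s) 2 := lt_max_of_lt_right (by norm_num)
  positivity

theorem cc_cont : Continuous cc := by
  unfold cc
  refine Continuous.div (by fun_prop) (by fun_prop) fun s => ?_
  have : 0 < max (5 - 3 * s) 2 := lt_max_of_lt_right (by norm_num)
  exact this.ne'

theorem hh_cont : Continuous hh := by
  have := cc_cont
  unfold hh
  fun_prop

/-- The data on the disc. -/
def c (x : Plane) : ℝ := cc (‖x‖ ^ 2)

def h (x : Plane) : ℝ := hh (‖x‖ ^ 2)

def g (x : Plane) : ℝ := F (‖x‖ ^ 2)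

def ustar (x : Plane) : ℝ := ‖x‖ ^ 2 - 1

theorem c_cont : Continuous c := by
  have := cc_cont
  unfold c
  fun_prop

theorem h_cont : Continuous h := by
  have := hh_cont
  unfold h
  fun_prop

theorem c_pos (x : Plane) : 0 < c x := cc_pos (by positivity)

theorem sq_lt {x : Plane} (hx : x ∈ disc) : ‖x‖ ^ 2 < 1 := by
  have h1 : ‖x‖ < 1 := by
    have : x ∈ Metric.ball (0 : Plane) 1 := hx
    simpa using this
  nlinarith [norm_nonneg x]

theorem g_smooth : ContDiff ℝ 2 g := F_smooth.comp (contDiff_norm_sq ℝ)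

theorem g_zero (x : Plane) (hx : ‖x‖ = 1) : g x = 0 := by
  unfold g F
  rw [hx]
  norm_num

theorem g_pos {x : Plane} (hx : x ∈ disc) : 0 < g x := by
  unfold g F
  have h1 := sq_lt hx
  have h2 : 0 ≤ ‖x‖ ^ 2 := by positivity
  generalize ‖x‖ ^ 2 = s at *
  have h3 : 1 - 8 / 5 * s + 3 / 5 * s ^ 2 = (1 - s) * (1 - 3 / 5 * s) := by ring
  rw [h3]
  have h4 : 0 < 1 - s := by linarith
  have h5 : 0 < 1 - 3 / 5 * s := by linarith
  positivity

theorem lap_g {x : Plane} (hx : x ∈ disc) :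
    -Δ g x = (h x + c x * ‖x‖ ^ 2) * g x := by
  have h1 := (radial_plane F_smooth F_deriv F'_deriv x).1
  have h2 := sq_lt hx
  have e : Δ g x = Δ (fun y : Plane => F (‖y‖ ^ 2)) x := rfl
  rw [e, h1]
  unfold h c g hh cc F F' F''
  generalize ‖x‖ ^ 2 = s at *
  rw [max_eq_left (by linarith)]
  generalize exp (s - 1) = z
  have h3 : 5 - 3 * s ≠ 0 := by
    intro h
    linarith
  have hq : 16 * (2 + 3 * s) / (5 - 3 * s) * (5 - 3 * s) = 16 * (2 + 3 * s) :=
    div_mul_cancel₀ _ h3
  generalize 16 * (2 + 3 * s) / (5 - 3 * s) = q at *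
  linear_combination (-z * (1 - s) / 5) * hq

theorem ustar_sol : IsSol 1 c (fun _ => 1) h ustar (gradient ustar) := by
  have hd : ∀ s : ℝ, HasDerivAt (fun s : ℝ => s - 1) ((fun _ : ℝ => (1 : ℝ)) s) s :=
    fun s => (hasDerivAt_id s).sub_const 1
  have hc2 : ContDiff ℝ 2 (fun s : ℝ => s - 1) := contDiff_id.sub contDiff_const
  refine isSol_of_classical c_cont continuous_const h_cont
    ((contDiff_norm_sq ℝ).sub contDiff_const) ?_ ?_
  · intro x hx
    unfold ustar
    rw [hx]
    ring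
  · intro x hx
    have h1 := radial_plane hc2 hd (fun s => hasDerivAt_const s 1) x
    have e : ustar = fun y : Plane => ‖y‖ ^ 2 - 1 := rfl
    rw [e]
    show -Δ (fun y : Plane => (‖y‖ ^ 2 - 1 : ℝ)) x
      = 1 * (c x * (‖x‖ ^ 2 - 1)) + 1 * ‖gradient (fun y : Plane => ‖y‖ ^ 2 - 1) x‖ ^ 2 + h x
    rw [h1.1, h1.2]
    unfold h c hh
    ring

/-- The pointwise inequality. -/
theorem point {lam u s : ℝ} (hl : lam ≤ 1) (hu : u ≤ 0) :
    0 ≤ lam * u * exp u - s * exp u + exp (s - 1) ∧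
    (lam * u * exp u - s * exp u + exp (s - 1) = 0 → u = s - 1 ∧ (lam < 1 → u = 0)) := by
  have h1 : 0 ≤ (lam - 1) * u * exp u := by
    have := mul_nonneg_of_nonpos_of_nonpos (by linarith : lam - 1 ≤ 0) hu
    have := exp_pos u
    positivity
  have h2 : exp (s - 1) = exp u * exp (s - 1 - u) := by
    rw [← exp_add]
    congr 1
    ring
  have h3 : s - 1 - u + 1 ≤ exp (s - 1 - u) := Real.add_one_le_exp _
  have h4 : 0 ≤ exp u * (exp (s - 1 - u) - (s - 1 - u + 1)) :=
    mul_nonneg (exp_pos u).le (by linarith)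
  have e : lam * u * exp u - s * exp u + exp (s - 1) =
      (lam - 1) * u * exp u + exp u * (exp (s - 1 - u) - (s - 1 - u + 1)) := by
    rw [h2]
    ring
  rw [e]
  refine ⟨by linarith, fun h0 => ?_⟩
  have h5 : exp u * (exp (s - 1 - u) - (s - 1 - u + 1)) = 0 := by linarith
  have h6 : (lam - 1) * u * exp u = 0 := by linarith
  constructor
  · have h7 : exp (s - 1 - u) - (s - 1 - u + 1) = 0 :=
      (mul_eq_zero.1 h5).resolve_left (exp_pos u).ne'
    by_contra hne
    have h8 : s - 1 - u ≠ 0 := fun h => hne (by linarith)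
    have := Real.add_one_lt_exp h8
    linarith
  · intro hlt
    rcases mul_eq_zero.1 h6 with h7 | h7
    · rcases mul_eq_zero.1 h7 with h8 | h8
      · linarith
      · exact h8
    · exact absurd h7 (exp_pos u).ne'

/-- The main step. -/
theorem main {lam : ℝ} (hl : lam ≤ 1) {u : Plane → ℝ} {G : Plane → Plane}
    (hs : IsSol lam c (fun _ => 1) h u G) (hu : ∀ᵐ x ∂volume.restrict disc, u x ≤ 0) :
    ∀ᵐ x ∂volume.restrict disc, u x = ustar x ∧ (lam < 1 → u x = 0) := by
  have key : ∀ {l : ℝ} {v : Plane → ℝ} {V : Plane → Plane}, IsSol l c (fun _ => 1) h v V →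
      Integrable (fun x => (l * (c x * v x) + h x) * (exp (v x) * g x)
        - -Δ g x * (exp (v x) - 1)) (volume.restrict disc) ∧
      ∫ x in disc, ((l * (c x * v x) + h x) * (exp (v x) * g x)
        - -Δ g x * (exp (v x) - 1)) = 0 := by
    intro l v V hv
    have h1 := hv.hopf_cole c_cont h_cont g_smooth g_zero
    have hlc := lap_continuous g_smooth
    have h2 : Integrable (fun x => -Δ g x * (exp (v x) - 1)) (volume.restrict disc) :=
      integrable_cont_mul (f := fun x => -Δ g x) hlc.neg (hv.exp_memLp.sub (memLp_const 1))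
    refine ⟨h1.1.sub h2, ?_⟩
    have h3 : ∫ x in disc, ((l * (c x * v x) + h x) * (exp (v x) * g x)
        - -Δ g x * (exp (v x) - 1)) = _ := integral_sub h1.1 h2
    rw [h3, h1.2, sub_self]
  have h1 := key hs
  have h2 := key ustar_sol
  have i3 := h1.1.sub h2.1
  have h3 : ∫ x in disc, (((lam * (c x * u x) + h x) * (exp (u x) * g x)
        - -Δ g x * (exp (u x) - 1)) - ((1 * (c x * ustar x) + h x) * (exp (ustar x) * g x)
        - -Δ g x * (exp (ustar x) - 1))) = 0 := by
    have := integral_sub h1.1 h2.1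
    rw [h1.2, h2.2, sub_zero] at this
    exact this
  have e : ∀ x ∈ disc, (((lam * (c x * u x) + h x) * (exp (u x) * g x)
        - -Δ g x * (exp (u x) - 1)) - ((1 * (c x * ustar x) + h x) * (exp (ustar x) * g x)
        - -Δ g x * (exp (ustar x) - 1))) = g x * c x * (lam * u x * exp (u x)
          - ‖x‖ ^ 2 * exp (u x) + exp (‖x‖ ^ 2 - 1)) := by
    intro x hx
    rw [lap_g hx]
    unfold ustar
    ring
  have hnn : 0 ≤ᵐ[volume.restrict disc] fun x => (((lam * (c x * u x) + h x) *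
        (exp (u x) * g x) - -Δ g x * (exp (u x) - 1)) - ((1 * (c x * ustar x) + h x) *
        (exp (ustar x) * g x) - -Δ g x * (exp (ustar x) - 1))) := by
    have h4 : ∀ᵐ x ∂volume.restrict disc, x ∈ disc := ae_restrict_mem disc_meas
    filter_upwards [hu, h4] with x hx hxd
    show 0 ≤ (((lam * (c x * u x) + h x) * (exp (u x) * g x)
        - -Δ g x * (exp (u x) - 1)) - ((1 * (c x * ustar x) + h x) * (exp (ustar x) * g x)
        - -Δ g x * (exp (ustar x) - 1)))
    rw [e x hxd]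
    exact mul_nonneg (mul_nonneg (g_pos hxd).le (c_pos x).le) (point hl hx).1
  have h5 := (integral_eq_zero_iff_of_nonneg_ae hnn i3).1 h3
  have h4 : ∀ᵐ x ∂volume.restrict disc, x ∈ disc := ae_restrict_mem disc_meas
  filter_upwards [h5, hu, h4] with x hx hux hxd
  have h6 : (((lam * (c x * u x) + h x) * (exp (u x) * g x)
        - -Δ g x * (exp (u x) - 1)) - ((1 * (c x * ustar x) + h x) * (exp (ustar x) * g x)
        - -Δ g x * (exp (ustar x) - 1))) = 0 := hx
  rw [e x hxd] at h6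
  have h7 := (mul_eq_zero.1 h6).resolve_left (mul_pos (g_pos hxd) (c_pos x)).ne'
  exact (point hl hux).2 h7

theorem no_sol {lam : ℝ} (hl : lam < 1) :
    ¬ ∃ (v : Plane → ℝ) (V : Plane → Plane), IsSol lam c (fun _ => 1) h v V ∧
      ∀ᵐ x ∂volume.restrict disc, v x ≤ 0 := by
  rintro ⟨v, V, hs, hv⟩
  have h1 := main hl.le hs hv
  have h2 : ∀ᵐ x ∂volume.restrict disc, x ∈ disc := ae_restrict_mem disc_meas
  have h3 : ∀ᵐ x ∂volume.restrict disc, False := by
    filter_upwards [h1, h2] with x hx hxd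
    have h4 := hx.2 hl
    rw [hx.1] at h4
    have := sq_lt hxd
    unfold ustar at h4
    linarith
  rw [eventually_false_iff_eq_bot, ae_eq_bot, Measure.restrict_eq_zero] at h3
  exact (Metric.measure_ball_pos volume (0 : Plane) one_pos).ne' h3

/-- There are continuous data `c > 0`, `h` on the disc (and `μ = 1`) satisfying (a) and (b), with
threshold equal to `1`, such that the solution `u ≤ 0` at the threshold, which is unique, satisfies
`u ≪ 0`. -/
theorem result : ∃ (c h u : Plane → ℝ) (G : Plane → Plane),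
    Continuous c ∧ Continuous h ∧ (∀ x, 0 < c x) ∧
    (¬ ∃ (v : Plane → ℝ) (V : Plane → Plane), IsSol 0 c (fun _ => 1) h v V ∧
      ∀ᵐ x ∂volume.restrict disc, v x ≤ 0) ∧
    IsLeast {lam : ℝ | 0 ≤ lam ∧ ∃ (v : Plane → ℝ) (V : Plane → Plane),
      IsSol lam c (fun _ => 1) h v V ∧ ∀ᵐ x ∂volume.restrict disc, v x ≤ 0} 1 ∧
    IsSol 1 c (fun _ => 1) h u G ∧ Continuous u ∧ (∀ x ∈ disc, u x ≤ 0) ∧
    (∀ (v : Plane → ℝ) (V : Plane → Plane), IsSol 1 c (fun _ => 1) h v V →
      (∀ᵐ x ∂volume.restrict disc, v x ≤ 0) → v =ᵐ[volume.restrict disc] u) ∧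
    MuchBelow c u := by
  have hneg : ∀ x ∈ disc, ustar x ≤ 0 := fun x hx => by
    have := sq_lt hx
    unfold ustar
    linarith
  have hneg' : ∀ᵐ x ∂volume.restrict disc, ustar x ≤ 0 :=
    (ae_restrict_iff' disc_meas).2 (Eventually.of_forall hneg)
  have huc : Continuous ustar := by
    unfold ustar
    fun_prop
  refine ⟨c, h, ustar, gradient ustar, c_cont, h_cont, c_pos, no_sol zero_lt_one, ⟨?_, ?_⟩,
    ustar_sol, huc, hneg, ?_, ?_⟩
  · exact ⟨zero_le_one, ustar, gradient ustar, ustar_sol, hneg'⟩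
  · rintro lam ⟨_, hlam⟩
    by_contra hcon
    exact no_sol (not_le.1 hcon) hlam
  · intro v V hv hv0
    filter_upwards [main le_rfl hv hv0] with x hx
    exact hx.1
  · intro γ φ P hφ hφc _
    obtain ⟨K, hK, hb⟩ := hφ.bound c_cont hφc
    refine ⟨1 / K, by positivity, fun x hx => ?_⟩
    have h1 := hb x hx
    unfold ustar
    rw [one_div, inv_mul_le_iff₀ hK]
    linarith

end

end Pool.Agent.Results.MP_0cf84d_an.FarBelow
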